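import Mathlib

/-!
# Strict intertwining of polynomials is not transitive (MP_c10dfe_an, Q1)

`P = z ^ 3 + z / 3` and `-P` are both semiconjugate to `R = z (z + 1 / 3) ^ 2` by `z ^ 2`, but no
polynomial `Φ` is semiconjugate to both: every fixed point of `Φ` would be attracting, which is
impossible for a polynomial of degree three.
-/

set_option autoImplicit false

open Polynomial

namespace Pool.Agent.Results.MP_c10dfe_an.OddCubic

/-- `A ≥ B`: there is a non-constant polynomial `π` with `π ∘ A = B ∘ π`. -/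
def SemiConj (A B : ℂ[X]) : Prop :=
  ∃ π : ℂ[X], 0 < π.natDegree ∧ π.comp A = B.comp π

/-- a semiconjugacy raises the multiplier of a fixed point to some power -/
lemma multiplier {Φ P π : ℂ[X]} (hπ : 0 < π.natDegree) (h : π.comp Φ = P.comp π) {x : ℂ}
    (hx : Φ.eval x = x) :
    P.eval (π.eval x) = π.eval x ∧ ∃ e : ℕ, 0 < e ∧
      (derivative P).eval (π.eval x) = (derivative Φ).eval x ^ e := by
  have hy : P.eval (π.eval x) = π.eval x := by
    have := congrArg (fun p : ℂ[X] => p.eval x) h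
    simp only [eval_comp, hx] at this
    exact this.symm
  refine ⟨hy, ?_⟩
  set y := π.eval x with hydef
  -- `P - y = (X - y) k`
  obtain ⟨k, hk⟩ : ∃ k, P - C y = (X - C y) * k := dvd_iff_isRoot.2 (by simp [hy])
  have hk' : (derivative P).eval y = k.eval y := by
    have := congrArg (fun p : ℂ[X] => (derivative p).eval y) hk
    simpa using this
  obtain ⟨m, hm⟩ : ∃ m, Φ - C x = (X - C x) * m := dvd_iff_isRoot.2 (by simp [hx])
  have hm' : (derivative Φ).eval x = m.eval x := by
    have := congrArg (fun p : ℂ[X] => (derivative p).eval x) hm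
    simpa using this
  have hne : π - C y ≠ 0 := by
    intro h0
    have : π = C y := sub_eq_zero.1 h0
    rw [this] at hπ
    simp at hπ
  obtain ⟨q, hq, hq'⟩ := exists_eq_pow_rootMultiplicity_mul_and_not_dvd (π - C y) hne x
  set e := rootMultiplicity x (π - C y) with he
  have he0 : 0 < e := by
    rw [he, rootMultiplicity_pos hne]
    simp [hydef]
  have hqx : q.eval x ≠ 0 := fun h0 => hq' (dvd_iff_isRoot.2 h0)
  refine ⟨e, he0, ?_⟩
  -- compare the two factorizations
  have h1 : (π - C y).comp Φ = (X - C x) ^ e * (m ^ e * q.comp Φ) := by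
    have h3 : (X - C x).comp Φ = Φ - C x := by simp
    rw [hq, mul_comp, pow_comp, h3, hm, mul_pow, mul_assoc]
  have h2 : (π - C y).comp Φ = (X - C x) ^ e * (q * k.comp π) := by
    have h3 : (π - C y).comp Φ = (P - C y).comp π := by simp [sub_comp, h]
    have h4 : (X - C y).comp π = π - C y := by simp
    rw [h3, hk, mul_comp, h4, hq]
    ring
  have h5 : (X - C x : ℂ[X]) ^ e ≠ 0 := pow_ne_zero _ (X_sub_C_ne_zero x)
  have h6 := mul_left_cancel₀ h5 (h1.symm.trans h2)
  have h7 := congrArg (fun p : ℂ[X] => p.eval x) h6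
  simp only [eval_mul, eval_pow, eval_comp, hx] at h7
  rw [← hydef] at h7
  rw [hk', hm']
  have h8 : q.eval x * (k.eval y - m.eval x ^ e) = 0 := by linear_combination -h7
  rcases mul_eq_zero.1 h8 with h9 | h9
  · exact absurd h9 hqx
  · linear_combination h9

/-- the polynomial `z ^ 3 + z / 3` -/
noncomputable def P : ℂ[X] := X ^ 3 + C (1 / 3) * X

/-- the polynomial `z (z + 1 / 3) ^ 2` -/
noncomputable def R : ℂ[X] := X * (X + C (1 / 3)) ^ 2

lemma natDegree_P : P.natDegree = 3 := by
  unfold P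
  compute_degree!

lemma natDegree_R : R.natDegree = 3 := by
  have : R = X ^ 3 + C (2 / 3) * X ^ 2 + C (1 / 9) * X := by
    unfold R
    have h1 : (C (2 / 3) : ℂ[X]) = 2 * C (1 / 3) := by
      rw [← C_ofNat, ← C_mul]; norm_num
    have h2 : (C (1 / 9) : ℂ[X]) = C (1 / 3) * C (1 / 3) := by
      rw [← C_mul]; norm_num
    rw [h1, h2]
    ring
  rw [this]
  compute_degree!

lemma semi_PR : SemiConj P R := by
  refine ⟨X ^ 2, by simp, ?_⟩
  simp only [P, R, pow_comp, X_comp, mul_comp, add_comp, C_comp]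
  ring

lemma semi_negPR : SemiConj (-P) R := by
  refine ⟨X ^ 2, by simp, ?_⟩
  simp only [P, R, pow_comp, X_comp, mul_comp, add_comp, C_comp, neg_comp]
  ring

lemma semi_refl (A : ℂ[X]) : SemiConj A A := ⟨X, by simp, by simp⟩

/-- the multipliers of the fixed points of `P` -/
lemma fix_P {y : ℂ} (hy : P.eval y = y) :
    (derivative P).eval y = 1 / 3 ∨ (derivative P).eval y = 7 / 3 := by
  have h1 : y * (y ^ 2 - 2 / 3) = 0 := by
    simp only [P, eval_add, eval_pow, eval_X, eval_mul, eval_C] at hy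
    linear_combination hy
  have h2 : (derivative P).eval y = 3 * y ^ 2 + 1 / 3 := by
    simp [P]
    norm_num
  rw [h2]
  rcases mul_eq_zero.1 h1 with h | h
  · left; rw [h]; ring
  · right; linear_combination 3 * h

/-- the multipliers of the fixed points of `-P` -/
lemma fix_negP {y : ℂ} (hy : (-P).eval y = y) :
    (derivative (-P)).eval y = -1 / 3 ∨ (derivative (-P)).eval y = 11 / 3 := by
  have h1 : y * (y ^ 2 + 4 / 3) = 0 := by
    simp only [P, eval_neg, eval_add, eval_pow, eval_X, eval_mul, eval_C] at hy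
    linear_combination -hy
  have h2 : (derivative (-P)).eval y = -(3 * y ^ 2 + 1 / 3) := by
    simp [P]
    norm_num
  rw [h2]
  rcases mul_eq_zero.1 h1 with h | h
  · left; rw [h]; ring
  · right; linear_combination -3 * h

/-- all the fixed points would be attracting -/
lemma norm_lt {l : ℂ} {e e' : ℕ} (he : 0 < e) (he' : 0 < e')
    (h1 : (1 / 3 : ℂ) = l ^ e ∨ (7 / 3 : ℂ) = l ^ e)
    (h2 : (-1 / 3 : ℂ) = l ^ e' ∨ (11 / 3 : ℂ) = l ^ e') : ‖l‖ < 1 := by
  rcases h1 with h1 | h1
  · have h3 : ‖l‖ ^ e = 1 / 3 := by rw [← norm_pow, ← h1]; norm_num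
    by_contra hcon
    push Not at hcon
    have := one_le_pow₀ hcon (n := e)
    linarith
  · rcases h2 with h2 | h2
    · have h3 : ‖l‖ ^ e' = 1 / 3 := by rw [← norm_pow, ← h2]; norm_num
      by_contra hcon
      push Not at hcon
      have := one_le_pow₀ hcon (n := e')
      linarith
    · exfalso
      have h3 : (7 / 3 : ℂ) ^ e' = (11 / 3) ^ e := by
        rw [h1, h2, ← pow_mul, ← pow_mul, mul_comm]
      have h4 : (7 : ℂ) ^ e' * 3 ^ e = 11 ^ e * 3 ^ e' := by
        rw [div_pow, div_pow] at h3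
        field_simp at h3
        linear_combination h3
      have h5 : 7 ^ e' * 3 ^ e = 11 ^ e * 3 ^ e' := by exact_mod_cast h4
      have h6 : 7 ∣ 11 ^ e * 3 ^ e' := by
        rw [← h5]
        exact dvd_mul_of_dvd_left (dvd_pow_self 7 he'.ne') _
      have h7 : Nat.Prime 7 := by norm_num
      rcases (Nat.Prime.dvd_mul h7).1 h6 with h8 | h8
      · have := h7.dvd_of_dvd_pow h8
        norm_num at this
      · have := h7.dvd_of_dvd_pow h8
        norm_num at this

lemma re_inv_pos {l : ℂ} (h : ‖l‖ < 1) : 0 < (1 / (1 - l)).re := by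
  have h1 : 0 < (1 - l).re := by
    have := Complex.re_le_norm l
    simp only [Complex.sub_re, Complex.one_re]
    linarith
  have h2 : 1 - l ≠ 0 := by
    intro h0
    rw [h0] at h1
    simp at h1
  rw [one_div, Complex.inv_re]
  exact div_pos h1 (Complex.normSq_pos.2 h2)

/-- a cubic polynomial has a fixed point whose multiplier has modulus at least one -/
lemma exists_fixed {Φ : ℂ[X]} (hΦ : Φ.natDegree = 3) :
    ∃ x, Φ.eval x = x ∧ ¬ ‖(derivative Φ).eval x‖ < 1 := by
  by_contra hcon
  push Not at hcon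
  have hdeg : (Φ - X).natDegree = 3 := by
    rw [natDegree_sub_eq_left_of_natDegree_lt, hΦ]
    rw [hΦ, natDegree_X]
    norm_num
  have hne : Φ - X ≠ 0 := by
    intro h
    rw [h] at hdeg
    simp at hdeg
  have hsplit := IsAlgClosed.splits (Φ - X)
  have hcard : (Φ - X).roots.card = 3 := by
    rw [← hdeg]
    exact (splits_iff_card_roots.1 hsplit)
  obtain ⟨x1, x2, x3, hroots⟩ := Multiset.card_eq_three.1 hcard
  have hprod : Φ - X = C (Φ - X).leadingCoeff * ((X - C x1) * ((X - C x2) * (X - C x3))) := by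
    have h1 := hsplit.eq_prod_roots
    rw [hroots] at h1
    simpa using h1
  set a := (Φ - X).leadingCoeff with ha
  have ha0 : a ≠ 0 := leadingCoeff_ne_zero.2 hne
  have hΦ' : Φ = X + C a * ((X - C x1) * ((X - C x2) * (X - C x3))) := by
    rw [← hprod]; ring
  have hf1 : Φ.eval x1 = x1 := by rw [hΦ']; simp
  have hf2 : Φ.eval x2 = x2 := by rw [hΦ']; simp
  have hf3 : Φ.eval x3 = x3 := by rw [hΦ']; simp
  have hd1 : (derivative Φ).eval x1 = 1 + a * ((x1 - x2) * (x1 - x3)) := by rw [hΦ']; simp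
  have hd2 : (derivative Φ).eval x2 = 1 + a * ((x2 - x1) * (x2 - x3)) := by
    rw [hΦ']; simp
  have hd3 : (derivative Φ).eval x3 = 1 + a * ((x3 - x1) * (x3 - x2)) := by
    rw [hΦ']; simp
  have hn1 := hcon x1 hf1
  have hn2 := hcon x2 hf2
  have hn3 := hcon x3 hf3
  have h12 : x1 - x2 ≠ 0 := by
    intro h
    rw [hd1, h] at hn1
    norm_num at hn1
  have h13 : x1 - x3 ≠ 0 := by
    intro h
    rw [hd1, h] at hn1
    norm_num at hn1
  have h23 : x2 - x3 ≠ 0 := by
    intro h
    rw [hd2, h] at hn2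
    norm_num at hn2
  have h21 : x2 - x1 ≠ 0 := fun h => h12 (by linear_combination -h)
  have h31 : x3 - x1 ≠ 0 := fun h => h13 (by linear_combination -h)
  have h32 : x3 - x2 ≠ 0 := fun h => h23 (by linear_combination -h)
  have hr1 := re_inv_pos hn1
  have hr2 := re_inv_pos hn2
  have hr3 := re_inv_pos hn3
  have hsum : 1 / (1 - (derivative Φ).eval x1) + 1 / (1 - (derivative Φ).eval x2)
      + 1 / (1 - (derivative Φ).eval x3) = 0 := by
    rw [hd1, hd2, hd3]
    have e1 : 1 - (1 + a * ((x1 - x2) * (x1 - x3))) = -(a * ((x1 - x2) * (x1 - x3))) := by ring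
    have e2 : 1 - (1 + a * ((x2 - x1) * (x2 - x3))) = a * ((x1 - x2) * (x2 - x3)) := by ring
    have e3 : 1 - (1 + a * ((x3 - x1) * (x3 - x2))) = -(a * ((x1 - x3) * (x2 - x3))) := by ring
    rw [e1, e2, e3]
    field_simp
    ring
  have := congrArg Complex.re hsum
  simp only [Complex.add_re, Complex.zero_re] at this
  linarith

/-- There are complex polynomials `P, Q, R` of degree three such that `P, R` are strictly
intertwined and `R, Q` are strictly intertwined, but `P, Q` are not. -/
theorem result :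
    ∃ P Q R φ ψ : ℂ[X], P.natDegree = 3 ∧ Q.natDegree = 3 ∧ R.natDegree = 3 ∧
      SemiConj φ P ∧ SemiConj φ R ∧ SemiConj ψ R ∧ SemiConj ψ Q ∧
      ¬ ∃ Φ : ℂ[X], SemiConj Φ P ∧ SemiConj Φ Q := by
  refine ⟨P, -P, R, P, -P, natDegree_P, by rw [natDegree_neg, natDegree_P], natDegree_R,
    semi_refl P, semi_PR, semi_negPR, semi_refl _, ?_⟩
  rintro ⟨Φ, ⟨π, hπ, hconj⟩, ⟨π', hπ', hconj'⟩⟩
  have hΦ : Φ.natDegree = 3 := by
    have h := congrArg natDegree hconj
    rw [natDegree_comp, natDegree_comp, natDegree_P, mul_comm] at h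
    exact Nat.eq_of_mul_eq_mul_right hπ h
  obtain ⟨x, hx, hx'⟩ := exists_fixed hΦ
  obtain ⟨hy, e, he, hmul⟩ := multiplier hπ hconj hx
  obtain ⟨hy', e', he', hmul'⟩ := multiplier hπ' hconj' hx
  apply hx'
  apply norm_lt he he'
  · rw [← hmul]
    rcases fix_P hy with h | h
    · left; exact h.symm
    · right; exact h.symm
  · rw [← hmul']
    rcases fix_negP hy' with h | h
    · left; exact h.symm
    · right; exact h.symm

end Pool.Agent.Results.MP_c10dfe_an.OddCubic
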